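import Mathlib
import Pool.Agent.H455.NT7

set_option autoImplicit false

/-!
# MP_7ecdd4_nt: the strong n-conjecture for compressible integers

Fix the number `n ≥ 3` of summands, a finite set `S` of primes and bases `b_1, …, b_n`, `h` whose
prime factors are in `S`. A number is called simple if its digits (in the given base) form, read in
one of the two directions, a word with at most `z` Lempel-Ziv phrases, or if a multiple `k x`,
`1 ≤ k ≤ M`, is a sum of `z` terms `v b ^ l` with integers `|v| ≤ M`. Consider the admissible tuples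
of the problem (`x_1 + … + x_n = 0`, nonzero and pairwise coprime; subsums may vanish) such that

* every `x_i` is simple in its base `b_i`;
* the product `R` of the primes `p ∉ S` which divide `x_1 ⋯ x_n`, or the quotient of the part
  prime to `S` of this product by `R`, is simple in base `h`;
* no `x_i` is divisible by `p ^ (m + 1)` for a prime `p ∉ S`.

It is shown that `max |x_i| ≤ (2 M) ^ C R ^ (n - 2 + ε)` for all of them and every `M ≥ 1`, where the
constant `C` depends only on `n, S, b_i, h, z, m, ε`. There is no exceptional set, the exponent does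
not depend on `S`, `z`, `m`, `M`, and nothing is assumed about the factors of the `x_i`.

The proof: along a sequence of counterexamples all summands, the radical and the cofactors
`R ^ m / x_i` are (after passing to a subsequence, by Newton's approximation and the Subspace
theorem) sums of few `S`-units with slowly growing coefficients; a basis of the group generated by
these units makes them polynomials over the field of germs of slow growth. There the inequality is
proved with Wronskians of minimal linear relations between the summands of a minimal vanishing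
subsum: the set of these summands is exhausted in steps, each of them costs a power `a - 1` of the
radical, where `a` is the number of the new summands. The Wronskians are bounded at all places of `S`
because sums of `S`-units which are independent modulo germs of slow growth have no cancellation.
-/

namespace Pool.Agent.Results.MP_7ecdd4_nt.CompressibleCoprime

open Finset

/-- The product of the primes outside of `S` which divide `n`. -/
def rad (S : Finset ℕ) (n : ℕ) : ℕ := ∏ p ∈ n.primeFactors with p ∉ S, p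

/-- The part of `n` prime to the primes of `S`. -/
def part (S : Finset ℕ) (n : ℕ) : ℕ := ∏ p ∈ n.primeFactors with p ∉ S, p ^ n.factorization p

/-- The letters in the positions `n ≤ j < m` of the word `a` form one phrase: it is a single letter,
or a copy of a block of letters starting `p` positions earlier (which may overlap the phrase). -/
def Phrase {α : Type} (a : ℕ → α) (n m : ℕ) : Prop :=
  m = n + 1 ∨ (n ≤ m ∧ ∃ p, 0 < p ∧ p ≤ n ∧ ∀ j, n ≤ j → j < m → a j = a (j - p))

/-- The word `a 0, …, a (L - 1)` is a concatenation of `z` phrases. -/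
def Compressible {α : Type} (a : ℕ → α) (L z : ℕ) : Prop :=
  ∃ c : ℕ → ℕ, c 0 = 0 ∧ c z = L ∧ ∀ i < z, Phrase a (c i) (c (i + 1))

/-- The digit of `|x|` in base `b` at the place `i` (the last digit has the place `0`). -/
def digit (b : ℕ) (x : ℤ) (i : ℕ) : ℕ := x.natAbs / b ^ i % b

/-- The number of digits of `|x|` in base `b`. -/
def places (b : ℕ) (x : ℤ) : ℕ := (Nat.digits b x.natAbs).length

/-- The digits of `|x|` in base `b`, read from the last to the first one or from the first to the
last one, form a word with `z` phrases. -/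
def CompressibleDigits (b z : ℕ) (x : ℤ) : Prop :=
  Compressible (fun j => digit b x j) (places b x) z ∨
    Compressible (fun j => digit b x (places b x - 1 - j)) (places b x) z

/-- A multiple `k x`, `1 ≤ k ≤ M`, is a sum of `z` terms `v b ^ l` with integers `|v| ≤ M`. -/
def FewPowers (b z : ℕ) (M : ℝ) (x : ℤ) : Prop :=
  ∃ (k : ℕ) (l : Fin z → ℕ) (v : Fin z → ℤ), 0 < k ∧ (k : ℝ) ≤ M ∧ (∀ j, |(v j : ℝ)| ≤ M) ∧
    (k : ℤ) * x = ∑ j, v j * (b : ℤ) ^ l j

/-- The digits in base `b` are compressible, or few powers of `b` suffice. -/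
def Simple (b z : ℕ) (M : ℝ) (x : ℤ) : Prop := CompressibleDigits b z x ∨ FewPowers b z M x

/-- **Main theorem.** -/
theorem result (S : Finset ℕ) (hS : ∀ p ∈ S, p.Prime) (n : ℕ) (hn : 3 ≤ n) (b : Fin n → ℕ) (h : ℕ)
    (hb : ∀ i, 2 ≤ b i) (hbS : ∀ i, (b i).primeFactors ⊆ S) (hh : 2 ≤ h)
    (hhS : h.primeFactors ⊆ S) (z m : ℕ) (ε : ℝ) (hε : 0 < ε) :
    ∃ C : ℕ, ∀ (M : ℝ) (x : Fin n → ℤ), 1 ≤ M → (∀ i, x i ≠ 0) →
      (∀ i j, i ≠ j → IsCoprime (x i) (x j)) → ∑ i, x i = 0 →
      (∀ i, Simple (b i) z M (x i)) →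
      (Simple h z M (rad S (∏ i, x i).natAbs) ∨
        ∃ q : ℤ, q * rad S (∏ i, x i).natAbs = part S (∏ i, x i).natAbs ∧ Simple h z M q) →
      (∀ p : ℕ, p.Prime → p ∉ S → ∀ i, ¬ (p : ℤ) ^ (m + 1) ∣ x i) →
      ∀ i, |(x i : ℝ)| ≤ (2 * M) ^ C *
        (rad S (∏ i, x i).natAbs : ℝ) ^ ((n : ℝ) - 2 + ε) := by
  classical
  obtain ⟨N, rfl⟩ : ∃ N, n = N + 1 := ⟨n - 1, by omega⟩
  have hN : 2 ≤ N := by omega
  have hl2 : 0 < Real.log 2 := Real.log_pos (by norm_num)
  obtain ⟨E, hE⟩ : ∃ E : ℝ, E = ((N + 1 : ℕ) : ℝ) - 2 := ⟨_, rfl⟩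
  have hE' : ((N - 1 : ℕ) : ℝ) = E := by
    rw [hE, Nat.cast_sub (by omega : 1 ≤ N)]
    push_cast
    ring
  have hE0 : 0 ≤ E := by
    rw [← hE']
    positivity
  obtain ⟨C1, hC1⟩ := Pool.Agent.H455.NT.main_cop hS hN m z True ε hε
    (Sum.elim b fun _ => h) (fun i => by rcases i with i | i; exacts [hb i, hh])
    (fun i => by rcases i with i | i; exacts [hbS i, hhS])
  obtain ⟨C2, hC2⟩ := Pool.Agent.H455.NT.main_cop hS hN m z False ε hε
    (Sum.elim b fun _ => h) (fun i => by rcases i with i | i; exacts [hb i, hh])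
    (fun i => by rcases i with i | i; exacts [hbS i, hhS])
  rw [hE'] at hC1 hC2
  obtain ⟨C3, hC3⟩ : ∃ C3 : ℝ, C3 = |C1| + |C2| := ⟨_, rfl⟩
  have hC30 : 0 ≤ C3 := by
    rw [hC3]
    positivity
  obtain ⟨K, hK⟩ := exists_nat_ge (C3 / Real.log 2)
  rw [div_le_iff₀ hl2] at hK
  refine ⟨K, ?_⟩
  intro M x hM hx0 hcop hsum hx hr hm i
  have hlM : 0 ≤ Real.log M := Real.log_nonneg hM
  have hCM : C3 * (1 + Real.log M) ≤ K * Real.log (2 * M) := by
    rw [Real.log_mul (by norm_num) (by linarith)]
    have h4 : Real.log 2 ≤ 1 := by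
      have := Real.log_two_lt_d9
      linarith
    have h5 : (K : ℝ) * Real.log 2 * Real.log M ≤ K * Real.log M := by
      have h6 : (0 : ℝ) ≤ K * Real.log M := mul_nonneg (Nat.cast_nonneg _) hlM
      nlinarith
    nlinarith
  rw [← hE]
  have hr1 : 1 ≤ rad S (∏ i, x i).natAbs := Pool.Agent.H455.AD.rd_pos _
  have hr1R : (1 : ℝ) ≤ rad S (∏ i, x i).natAbs := by exact_mod_cast hr1
  have hm' : ∀ p : ℕ, p.Prime → p ∉ S → ∀ i, (x i).natAbs.factorization p ≤ m := by
    intro p hp hpS i
    by_contra hcon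
    push Not at hcon
    apply hm p hp hpS i
    have h1 : p ^ (m + 1) ∣ (x i).natAbs :=
      (hp.pow_dvd_iff_le_factorization (Int.natAbs_ne_zero.2 (hx0 i))).2 (by omega)
    have h2 := Int.natCast_dvd.2 h1
    exact_mod_cast h2
  -- it suffices to bound the logarithm
  have hfin : ∀ (alt : Prop) (P : Pool.Agent.H455.NT.NPt S N m alt (Pool.Agent.H455.NT.QC N))
      (C : ℝ), P.x = x → P.M = M → |C| ≤ C3 →
      P.H ≤ (E + ε) * Real.log P.ρ + C * (1 + Real.log P.M) →
      |(x i : ℝ)| ≤ (2 * M) ^ K * (rad S (∏ i, x i).natAbs : ℝ) ^ (E + ε) := by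
    intro alt P C hPx hPM hC h1
    have h2 := P.x_le i
    rw [hPx] at h2
    have h3 : (P.ρ : ℝ) = (rad S (∏ i, x i).natAbs : ℝ) := by
      unfold Pool.Agent.H455.NT.NPt.ρ
      rw [hPx]
      rfl
    rw [h3, hPM] at h1
    have h4 : |(x i : ℝ)| ≤ P.Y := by
      have h5 : |(x i : ℝ)| = (((x i).natAbs : ℕ) : ℝ) := by
        rw [Nat.cast_natAbs, Int.cast_abs]
      rw [h5]
      exact_mod_cast h2
    have h0 : 0 < |(x i : ℝ)| := by
      rw [abs_pos]
      exact_mod_cast hx0 i
    rw [← Real.log_le_log_iff h0 (by positivity), Real.log_mul (by positivity) (by positivity),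
      Real.log_pow, Real.log_rpow (by linarith)]
    have h5 := Real.log_le_log h0 h4
    have h7 : Real.log (P.Y : ℝ) = P.H := rfl
    have h8 : C * (1 + Real.log M) ≤ C3 * (1 + Real.log M) :=
      mul_le_mul_of_nonneg_right ((le_abs_self C).trans hC) (by linarith)
    rw [h7] at h5
    linarith
  have hbase : ∀ (P : Fin (N + 1) ⊕ Unit → ℤ), (∀ i, P (Sum.inl i) = x i) →
      Simple h z M (P (Sum.inr ())) → ∀ i, Simple (Sum.elim b (fun _ => h) i) z M (P i) := by
    intro P hP hu i
    rcases i with i | i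
    · rw [hP]
      exact hx i
    · exact hu
  have hQ : Pool.Agent.H455.NT.QC N x := by
    intro q hq i j hij h1 h2
    obtain ⟨u, v, huv⟩ := hcop i j hij
    have h3 : (q : ℤ) ∣ 1 := by
      rw [← huv]
      exact (h1.mul_left _).add (h2.mul_left _)
    exact hq.one_lt.ne' (by
      have := Int.eq_one_of_dvd_one (Int.natCast_nonneg q) h3
      exact_mod_cast this)
  rcases hr with hr | ⟨q, hq, hr⟩
  · obtain ⟨P, hPx, hPZ, hPM⟩ :
        ∃ P : Pool.Agent.H455.NT.NPt S N m True (Pool.Agent.H455.NT.QC N),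
        P.x = x ∧ P.Z = rad S (∏ i, x i).natAbs ∧ P.M = M :=
      ⟨⟨x, rad S (∏ i, x i).natAbs, M, hx0, hsum, hQ, hm', Or.inl ⟨trivial, rfl⟩, hM⟩,
        rfl, rfl, rfl⟩
    refine hfin True P C1 hPx hPM ?_ (hC1 P (fun i => ?_))
    · rw [hC3]
      have := abs_nonneg C2
      linarith
    · have h1 := hbase P.z (fun i => by unfold Pool.Agent.H455.NT.NPt.z; rw [← hPx]; rfl)
        (by unfold Pool.Agent.H455.NT.NPt.z; rw [Sum.elim_inr, hPZ]; exact hr) i
      rw [hPM]
      exact h1
  · obtain ⟨P, hPx, hPZ, hPM⟩ :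
        ∃ P : Pool.Agent.H455.NT.NPt S N m False (Pool.Agent.H455.NT.QC N),
        P.x = x ∧ P.Z = q ∧ P.M = M :=
      ⟨⟨x, q, M, hx0, hsum, hQ, hm', Or.inr ⟨not_false, hq⟩, hM⟩, rfl, rfl, rfl⟩
    refine hfin False P C2 hPx hPM ?_ (hC2 P (fun i => ?_))
    · rw [hC3]
      have := abs_nonneg C1
      linarith
    · have h1 := hbase P.z (fun i => by unfold Pool.Agent.H455.NT.NPt.z; rw [← hPx]; rfl)
        (by unfold Pool.Agent.H455.NT.NPt.z; rw [Sum.elim_inr, hPZ]; exact hr) i
      rw [hPM]
      exact h1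

end Pool.Agent.Results.MP_7ecdd4_nt.CompressibleCoprime
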