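import Pool.Agent.H423.SN.Par

/-!
# The limit points of the exponents of pairwise coprime `n`-tuples

For an admissible `n`-tuple `x` (nonzero pairwise coprime integers with sum zero) let
`exponent x = log max |x_j| / log rad (x_1 ⋯ x_n)`; Q1 for `n` says that the exponents of the
admissible `n`-tuples are bounded. Let `L n ⊆ [1 / n, ∞)` be the set of the limit points of the
exponents (along tuples of unbounded size).

1. `L n` contains `[1 / n, 5 / 3]` for odd `n ≥ 5` and `[1 / n, 7 / 5]` for even `n ≥ 6`; the right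
   end points are the largest known exponents. Moreover `[1 / 4, 1] ⊆ L 4` and `[1 / 3, 1 / 2] ⊆ L 3`.
2. If there are arbitrarily large admissible `n`-tuples with `max |x_j| ≥ rad ^ q`, then
   `[1 / n', q] ⊆ L n'` for `n' = n + 4`, and for `n' = n + 3` if `n` is even.
3. If Q1 fails for `n ≥ 3`, then `L n' = [1 / n', ∞)` for all odd `n' ≥ n + 3`, and also for all even
   `n' ≥ n + 3` if `n` is even.
4. Q1 holds (for all `n`) if and only if `L n ≠ [1 / n, ∞)` for arbitrarily large odd `n`.

Proof. The main step completes `m` given nonzero pairwise coprime integers with sum `s ≠ 0` to an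
admissible `(m + 2)`-tuple by two squarefree numbers `a` and `-(a + s)` of a prescribed size `A`,
where the given numbers may be as large as any power of `A` and `|s|` at most a multiple of `A`. The
residues of `a` modulo all primes `p ≤ w`, `w = (log A) / 8`, are fixed such that `p` divides neither
`a` nor `a + s` (except that `a + s ≡ 2` modulo `4` if `s` is odd), and the numbers `a` in this
progression which are excluded by larger prime factors of the given numbers or by squares of larger
primes are few. The radical is multiplied by `|a (a + s)|`, so it can be adjusted. In 1 the given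
numbers are `X ^ 5`, `-(X - 2) ^ 5`, `-10 ((X - 1) ^ 2 + 1) ^ 2` with sum `-8`, `X = 71 ^ t`, or the
four nonconstant entries of the library theorem `EvenLengths`, for exponents at least `1 / 2`, and
primes of equal size for the exponents up to `1 / 2`; in 2 they are the entries of an `n`-tuple and `1`
(and `1`).
-/

set_option autoImplicit false

namespace Pool.Agent.Results.MP_7ecdd4_nt.ExponentIntervals

/-- The admissible `n`-tuples of the problem: nonzero pairwise coprime integers with sum zero. -/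
def Admissible {n : ℕ} (x : Fin n → ℤ) : Prop :=
  (∀ i, x i ≠ 0) ∧ (∀ i j, i ≠ j → Int.gcd (x i) (x j) = 1) ∧ ∑ i, x i = 0

/-- The radical of `x_1 ⋯ x_n`: the product of the primes dividing it. -/
def rad {n : ℕ} (x : Fin n → ℤ) : ℕ := ∏ p ∈ (∏ i, x i).natAbs.primeFactors, p

/-- The size `max |x_j|`. -/
def size {n : ℕ} (x : Fin n → ℤ) : ℕ := Finset.univ.sup fun i => (x i).natAbs

/-- The exponent `log max |x_j| / log rad (x_1 ⋯ x_n)`. -/
noncomputable def exponent {n : ℕ} (x : Fin n → ℤ) : ℝ := Real.log (size x) / Real.log (rad x)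

/-- `lam` is a limit point of the exponents: there are admissible `n`-tuples, of size as large as
desired, with exponent as close to `lam` as desired. -/
def LimitPoint (n : ℕ) (lam : ℝ) : Prop :=
  ∀ ε : ℝ, 0 < ε → ∀ N : ℝ, ∃ x : Fin n → ℤ, Admissible x ∧ N < size x ∧ |exponent x - lam| < ε

/-- The assertion of Q1 for a fixed `n`. -/
def HoldsFor (n : ℕ) : Prop :=
  ∃ M : ℝ, ∀ x : Fin n → ℤ, Admissible x → ∀ j, (|x j| : ℝ) ≤ (rad x : ℝ) ^ M

/-- There are arbitrarily large admissible `n`-tuples with `max |x_j| ≥ rad ^ q`. -/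
def Reached (n : ℕ) (q : ℝ) : Prop :=
  ∀ N : ℝ, ∃ x : Fin n → ℤ, Admissible x ∧ N < size x ∧ (rad x : ℝ) ^ q ≤ size x

/-- **The limit points of the exponents of pairwise coprime `n`-tuples with sum zero.** -/
theorem result :
    -- 0. all limit points are at least `1 / n`
    (∀ (n : ℕ) (lam : ℝ), 3 ≤ n → LimitPoint n lam → 1 / (n : ℝ) ≤ lam) ∧
    -- 1. intervals of limit points
    (∀ (n : ℕ) (lam : ℝ), Odd n → 5 ≤ n → 1 / (n : ℝ) ≤ lam → lam ≤ 5 / 3 → LimitPoint n lam) ∧
    (∀ (n : ℕ) (lam : ℝ), Even n → 6 ≤ n → 1 / (n : ℝ) ≤ lam → lam ≤ 7 / 5 → LimitPoint n lam) ∧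
    (∀ lam : ℝ, 1 / 4 ≤ lam → lam ≤ 1 → LimitPoint 4 lam) ∧
    (∀ lam : ℝ, 1 / 3 ≤ lam → lam ≤ 1 / 2 → LimitPoint 3 lam) ∧
    -- 2. large exponents for `n` give all smaller ones for `n + 4`, and `n + 3` if `n` is even
    (∀ (n n' : ℕ) (q lam : ℝ), Reached n q → n' = n + 4 ∨ Even n ∧ n' = n + 3 →
      1 / (n' : ℝ) ≤ lam → lam ≤ q → LimitPoint n' lam) ∧
    -- 3. if Q1 fails for `n` then every number `≥ 1 / n'` is a limit point for `n'`
    (∀ (n n' : ℕ) (lam : ℝ), 3 ≤ n → ¬ HoldsFor n → n + 3 ≤ n' → Even n ∨ Odd n' →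
      1 / (n' : ℝ) ≤ lam → LimitPoint n' lam) ∧
    -- 4. an equivalent form of Q1
    ((∀ n : ℕ, 3 ≤ n → HoldsFor n) ↔ ∀ N : ℕ, ∃ n, N ≤ n ∧ Odd n ∧
      ∃ lam : ℝ, 1 / (n : ℝ) ≤ lam ∧ ¬ LimitPoint n lam) := by
  refine ⟨fun n lam hn h => ?_, fun n lam h1 h2 h3 h4 => ?_, fun n lam h1 h2 h3 h4 => ?_,
    fun lam h1 h2 => ?_, fun lam h1 h2 => ?_, fun n n' q lam h1 h2 h3 h4 => ?_,
    fun n n' lam _ h1 h2 h3 h4 => ?_, ?_⟩
  · exact Pool.Agent.H423.SN.lower (by omega) h
  · exact Pool.Agent.H423.SN.odd_case h1 h2 h3 h4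
  · exact Pool.Agent.H423.SN.even_case h1 h2 h3 h4
  · exact Pool.Agent.H423.SN.four_case h1 h2
  · exact Pool.Agent.H423.SN.low_case (n := 3) le_rfl (by norm_num; linarith) h2
  · exact Pool.Agent.H423.SN.down' h1 h2 h3 h4
  · exact Pool.Agent.H423.SN.fails' h1 h2 h3 h4
  · exact Pool.Agent.H423.SN.iff_odd

end Pool.Agent.Results.MP_7ecdd4_nt.ExponentIntervals
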